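import Pool.Agent.J4.H87.CurMain

/-!
# `C`-cycles are not local superpositions of pseudoholomorphic curves

Let `M = ℂ²`, with the foliation whose only leaf is `M`, and with `J` the multiplication by `i`. The
current

`c (α) = ∑_r ∫_{y ∈ ℝ²} ∫_{s > 0} α_{s r + i y} (r, i r) ds dy`, `r ∈ {(0, -1), (-1, 0), (1, 1)}`,

(a multiple of `dd^c max (Re z₁, Re z₂, 0)`) is a `C`-cycle. Its support lies over the tropical line.
A curve which is contained in the support lies in one of the complex lines `z₁ = iθ`, `z₂ = iθ`,
`z₁ - z₂ = iθ`, of which only a half is contained in the support; so no curve which is closed in a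
neighbourhood `U` of `0` and contained in the support comes close to `0`. On the other hand almost
all curves of a superposition must be contained in the support of `c`.
-/

set_option autoImplicit false

open scoped Distributions CompactConvergenceCLM Topology ContDiff Manifold
open TopologicalSpace MeasureTheory Set

universe u

namespace Pool.Agent.Results.MP_03adb9_gt.NoLocalSuperposition

open Pool.Agent.J4.H87.Cur

/-- **The local superposition property fails** for the smooth integrable structure `J0` on `ℂ²`:
there is a `C`-cycle `c` on `ℂ²` which on no neighbourhood `U` of `0` is a superposition of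
pseudoholomorphic curves in `U`. -/
theorem result :
    (ContDiff ℝ ∞ J0 ∧ ∀ x v, J0 x (J0 x v) = -v) ∧
    ∃ c : Current 2 (whole C2), c ∈ CCurrents J0 (whole C2) ∧ IsCycle c ∧
      ∀ U : Opens C2, 0 ∈ U → ¬ IsSuperposition.{u} J0 c U := by
  refine ⟨⟨contDiff_const, fun x v => ?_⟩, trop, trop_mem, trop_cycle,
    fun U hU => not_superposition U hU⟩
  rw [J0_apply, J0_apply, smul_smul, Complex.I_mul_I, neg_one_smul]

end Pool.Agent.Results.MP_03adb9_gt.NoLocalSuperposition
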